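import Mathlib
import Pool.Prelude.Def_F_54212188
import Pool.Agent.H94.Pol.Data.All

set_option autoImplicit false

open N025e1b83
open scoped BigOperators

namespace Pool.Agent.Results.MP_785d86_nt.SevenTetrahedral

/-- Every natural number is a sum of seven tetrahedral numbers. -/
theorem result : ∀ (N : ℕ), ∃ f : Fin 7 → ℕ, N = ∑ i, tetrahedral (f i) := by
  intro N
  obtain ⟨f, hf⟩ := Pool.H94.Pol.seven N
  exact ⟨f, hf⟩

end Pool.Agent.Results.MP_785d86_nt.SevenTetrahedral
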